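import Pool.Agent.H25.P4.GfE

/-!
# TC, labels with gain: the gradient at the exact point

`gD`: the gradient of a polynomial in the chart in the directions `k ≥ 1` at a time. The products of
two coordinates gain `a z` digits, whatever the slopes are.
-/

set_option autoImplicit false

namespace Pool.TC25

open Finset Real MvPolynomial
open Pool.Agent.H49.Ent Pool.Agent.H32.Dense Pool.STK Pool.STAT Pool.MIC.Frm Pool.FRM Pool.P4
open Pool.P4L (mon eval_mon exs_lt exs_deg mon_le mon_time mon_single mon_add mon_tz Lw Sm sm_of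
  split_exp wt_le single_mem)

/-- The base level and the level at a larger radius. -/
structure Lq (n c y z a : ℕ) (g g2 : ℕ → ℕ) : Prop where
  t2 : g2 0 = g 0
  ya : y ≤ a
  q1 : ∀ k, 1 ≤ k → k ≤ n → g2 k + a * z ≤ g k + c * z
  q2 : ∀ l, 1 ≤ l → l ≤ n → g l ≤ g2 l + a * z + c * z

theorem Lq.lw {n c y z a : ℕ} {g g2 : ℕ → ℕ} (h : Lq n c y z a g g2) :
    Lw n c y z 0 a (fun _ => False) g g g2 where
  t1 := by rw [zero_mul, add_zero]
  t2 := h.t2
  ya := h.ya
  q1 := h.q1
  q2 := h.q2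
  s2 := fun _ _ _ _ _ _ h _ => h.elim
  s4 := fun _ _ _ _ _ _ h => h.elim

/-- The gradient in the chart, at the time `t`. -/
noncomputable def gD (F : PN) (N : ℕ) (t : ℝ) (k : ℕ) : ℝ :=
  ∑ m ∈ range (N + 1), coeff (Finsupp.single k 1 + Finsupp.single 0 m) F * t ^ m

theorem pow_mem {l N k m : ℕ} (hN : 1 ≤ N) (k1 : 1 ≤ k) (hk : k < l) (hm : m ≤ N) :
    Finsupp.single k 1 + Finsupp.single 0 m ∈ exs l N := by
  unfold exs
  rw [Finset.mem_finsupp_iff]
  have key : ∀ i, (Finsupp.single k 1 + Finsupp.single 0 m : ℕ →₀ ℕ) i ≤ N ∧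
      ((Finsupp.single k 1 + Finsupp.single 0 m : ℕ →₀ ℕ) i ≠ 0 → i < l) := by
    intro i
    rw [Finsupp.add_apply]
    rcases eq_or_ne i k with h | h
    · rw [h, Finsupp.single_eq_same, Finsupp.single_eq_of_ne (by omega)]
      exact ⟨by omega, fun _ => hk⟩
    · rw [Finsupp.single_eq_of_ne h]
      rcases eq_or_ne i 0 with h' | h'
      · rw [h', Finsupp.single_eq_same]
        exact ⟨by omega, fun _ => by omega⟩
      · rw [Finsupp.single_eq_of_ne h']
        exact ⟨by omega, fun h => absurd rfl h⟩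
  refine ⟨fun i hi => ?_, fun i _ => ?_⟩
  · rw [Finsupp.mem_support_iff] at hi
    exact mem_range.2 ((key i).2 hi)
  · rw [mem_range]
    have := (key i).1
    omega

theorem mon_pow (k m : ℕ) (b : ℕ → ℝ) :
    mon (Finsupp.single k 1 + Finsupp.single 0 m) b = b k * b 0 ^ m := by
  rw [mon_add, mon_single]
  congr 1
  rcases Nat.eq_zero_or_pos m with h | h
  · rw [h, Finsupp.single_zero, pow_zero]
    unfold mon
    rw [Finsupp.support_zero, Finset.prod_empty]
  · unfold mon
    rw [Finsupp.support_single 0 (by omega), Finset.prod_singleton, Finsupp.single_eq_same]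

theorem gD_zero {F : PN} {l N : ℕ} (hv : F.vars ⊆ range l) {k : ℕ} (h : l ≤ k) (t : ℝ) :
    gD F N t k = 0 := by
  unfold gD
  refine Finset.sum_eq_zero fun m _ => ?_
  have h1 : Finsupp.single k 1 + Finsupp.single 0 m ∉ F.support := by
    intro hs
    have h2 : k ∈ (Finsupp.single k 1 + Finsupp.single 0 m : ℕ →₀ ℕ).support := by
      rw [Finsupp.mem_support_iff, Finsupp.add_apply, Finsupp.single_eq_same]
      omega
    have := Pool.SYS35.vars_of_mem hv hs h2
    omega
  rw [notMem_support_iff.1 h1, zero_mul]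

/-- **The difference at one time**, in the chart. -/
theorem dif_chr {n c y z a : ℕ} {g g2 : ℕ → ℕ} (h : Lq n c y z a g g2)
    {F : PN} {l N : ℕ} {S B : ℝ} (hS : 0 ≤ S) (hB : 1 ≤ B) (hN1 : 1 ≤ N) (l1 : 1 ≤ l)
    (ln : l ≤ n) (hv : F.vars ⊆ range l) (hN : F.totalDegree ≤ N)
    (h2 : nrm g2 (1 / 2) F ≤ S / 2 ^ g2 l)
    {ζ ζ' : ℕ → ℝ} (hζ : ∀ i < l, |ζ i| ≤ B / 2 ^ g i) (hζ' : ∀ i < l, |ζ' i| ≤ B / 2 ^ g i)
    (h0 : ζ 0 = ζ' 0) :
    |eval ζ F - eval ζ' F - ∑ k ∈ Ico 1 l, gD F N (ζ 0) k * (ζ k - ζ' k)| ≤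
      2 * ((exs l N).card * (B ^ (l * N) * (S * 2 ^ ((n * N + 3) * (c * z)))) / 2 ^ (y * z) /
        2 ^ g l) := by
  classical
  obtain ⟨f, hf⟩ : ∃ f : (ℕ →₀ ℕ) → ℝ, f = fun α => coeff α F * mon α ζ -
    coeff α F * mon α ζ' := ⟨_, rfl⟩
  obtain ⟨T, hT⟩ : ∃ T : Finset (ℕ →₀ ℕ), T = ((Ico 1 l) ×ˢ range (N + 1)).image
    fun p => Finsupp.single p.1 1 + Finsupp.single 0 p.2 := ⟨_, rfl⟩
  have e0 : eval ζ F - eval ζ' F = ∑ α ∈ exs l N, f α := by
    rw [eval_mon hv hN, eval_mon hv hN, ← Finset.sum_sub_distrib, hf]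
  have s1 : T ⊆ exs l N := by
    intro α hα
    rw [hT, mem_image] at hα
    obtain ⟨p, hp, rfl⟩ := hα
    rw [mem_product, mem_Ico, mem_range] at hp
    exact pow_mem hN1 hp.1.1 hp.1.2 (by omega)
  have e1 : ∑ α ∈ T, f α = ∑ k ∈ Ico 1 l, gD F N (ζ 0) k * (ζ k - ζ' k) := by
    rw [hT, Finset.sum_image]
    · rw [Finset.sum_product]
      refine Finset.sum_congr rfl fun k hk => ?_
      rw [mem_Ico] at hk
      unfold gD
      rw [Finset.sum_mul]
      refine Finset.sum_congr rfl fun m _ => ?_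
      rw [hf]
      simp only
      rw [mon_pow k m, mon_pow k m, ← h0]
      ring
    · rintro ⟨k, m⟩ hp ⟨k', m'⟩ hp' he
      rw [mem_coe, mem_product, mem_Ico] at hp hp'
      simp only at hp hp' he
      have z1 : ∀ m : ℕ, (Finsupp.single 0 m : ℕ →₀ ℕ) k = 0 := fun m =>
        Finsupp.single_eq_of_ne (by omega)
      have z2 : ∀ k : ℕ, 1 ≤ k → (Finsupp.single k 1 : ℕ →₀ ℕ) 0 = 0 := fun k hk =>
        Finsupp.single_eq_of_ne (by omega)
      have e2 := DFunLike.congr_fun he k
      rw [Finsupp.add_apply, Finsupp.add_apply, Finsupp.single_eq_same, z1, z1] at e2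
      have e3 : k = k' := by
        by_contra hne
        rw [Finsupp.single_eq_of_ne hne] at e2
        omega
      have e4 := DFunLike.congr_fun he 0
      rw [Finsupp.add_apply, Finsupp.add_apply, Finsupp.single_eq_same,
        Finsupp.single_eq_same, z2 k hp.1.1, z2 k' hp'.1.1] at e4
      rw [e3]
      simp only [Prod.mk.injEq, true_and]
      omega
  have e4 : eval ζ F - eval ζ' F - ∑ k ∈ Ico 1 l, gD F N (ζ 0) k * (ζ k - ζ' k) =
      ∑ α ∈ exs l N \ T, f α := by
    rw [← e1, e0, ← Finset.sum_sdiff s1]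
    ring
  rw [e4]
  have hw : ∀ α ∈ exs l N \ T, |f α| ≤
      2 * (B ^ (l * N) * (S * 2 ^ ((n * N + 3) * (c * z))) / 2 ^ (y * z) / 2 ^ g l) := by
    intro α hα
    rw [mem_sdiff] at hα
    obtain ⟨hα, hnot⟩ := hα
    by_cases ht : ∀ k, 1 ≤ k → α k = 0
    · have : f α = 0 := by
        rw [hf]
        simp only
        rw [mon_time ht (b := ζ) (b' := ζ') h0, sub_self]
      rw [this, abs_zero]
      positivity
    · push Not at ht
      obtain ⟨k, k1, hk⟩ := ht
      have hkl := exs_lt hα (Finsupp.mem_support_iff.2 hk)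
      have hsm : Sm g l F (S * 2 ^ ((n * N + 3) * (c * z))) (1 / 2 ^ (y * z)) α := by
        rcases split_exp hk with ⟨k', γ, k1', e⟩ | ⟨m, e⟩
        · rw [e] at hα ⊢
          exact sm_of hS h2 (h.lw.quad l1 ln k1 k1' hα)
        · exfalso
          refine hnot ?_
          have hm : m ≤ N := by
            have h5 : α 0 ≤ N := by
              have h6 := hα
              unfold exs at h6
              rw [Finset.mem_finsupp_iff] at h6
              by_cases h7 : 0 ∈ range l
              · have := h6.2 0 h7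
                rw [mem_range] at this
                omega
              · exact absurd (mem_range.2 (by omega)) h7
            rw [e, Finsupp.add_apply, Finsupp.single_eq_same,
              Finsupp.single_eq_of_ne (by omega)] at h5
            omega
          rw [e, hT, mem_image]
          exact ⟨(k, m), mem_product.2 ⟨mem_Ico.2 ⟨k1, hkl⟩, mem_range.2 (by omega)⟩, rfl⟩
      unfold Sm at hsm
      have one : ∀ b : ℕ → ℝ, (∀ i < l, |b i| ≤ B / 2 ^ g i) → |coeff α F * mon α b| ≤
          B ^ (l * N) * (S * 2 ^ ((n * N + 3) * (c * z))) / 2 ^ (y * z) / 2 ^ g l := by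
        intro b hb
        have h3 := mon_le hB hα hb
        rw [abs_mul]
        calc |coeff α F| * |mon α b| ≤ |coeff α F| *
              (B ^ (l * N) * (1 / 2) ^ Finsupp.weight g α) :=
              mul_le_mul_of_nonneg_left h3 (abs_nonneg _)
          _ = B ^ (l * N) * (|coeff α F| * (1 / 2) ^ Finsupp.weight g α) := by ring
          _ ≤ B ^ (l * N) * (S * 2 ^ ((n * N + 3) * (c * z)) * (1 / 2 ^ (y * z)) / 2 ^ g l) :=
              mul_le_mul_of_nonneg_left hsm (by positivity)
          _ = _ := by ring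
      rw [hf]
      refine (abs_sub _ _).trans ((add_le_add (one ζ hζ) (one ζ' hζ')).trans (le_of_eq ?_))
      ring
  refine (Finset.abs_sum_le_sum_abs _ _).trans ((Finset.sum_le_sum hw).trans ?_)
  rw [Finset.sum_const, nsmul_eq_mul]
  have hcard : ((exs l N \ T).card : ℝ) ≤ (exs l N).card := by
    exact_mod_cast Finset.card_le_card sdiff_subset
  calc ((exs l N \ T).card : ℝ) *
        (2 * (B ^ (l * N) * (S * 2 ^ ((n * N + 3) * (c * z))) / 2 ^ (y * z) / 2 ^ g l))
      ≤ (exs l N).card * (2 * (B ^ (l * N) * (S * 2 ^ ((n * N + 3) * (c * z))) / 2 ^ (y * z) /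
        2 ^ g l)) := mul_le_mul_of_nonneg_right hcard (by positivity)
    _ = _ := by ring

end Pool.TC25
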