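import Pool.Agent.H25.TC.GtA
import Pool.Agent.H25.P4.GfG

/-!
# TC, labels with gain: the gradient at the exact point, natural units
-/

set_option autoImplicit false

namespace Pool.TC25

open Finset Real MvPolynomial
open Pool.Agent.H49.Ent Pool.Agent.H32.Dense Pool.STK Pool.STAT Pool.MIC.Frm Pool.FRM Pool.P4

/-- The degree in the chart. -/
def NK (n K : ℕ) : ℕ := K * (K + 1) ^ n + 1

/-- The gradient in natural units. -/
noncomputable def gN (n K : ℕ) (g : ℕ → ℕ) (P U : ℕ → PN) (l k : ℕ) (t : ℝ) : ℝ :=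
  2 ^ g l / 2 ^ g k * gD (chr P (U l - P l)) (NK n K) t k

theorem gN_zero {n K : ℕ} {g : ℕ → ℕ} {P U : ℕ → PN} (hP : TriN P) (hU : TriN U) {l k : ℕ}
    (h : l ≤ k) (t : ℝ) : gN n K g P U l k t = 0 := by
  unfold gN
  rw [gD_zero (chr_vars hP (AdxRow.vars_sub_le (hU l) (hP l))) h, mul_zero]

/-- The gradient is bounded. -/
theorem gN_le (n K : ℕ) (c b : ℝ) (hc : 0 ≤ c) (hb : 0 ≤ b) : ∃ c' : ℝ, 0 ≤ c' ∧
    ∀ (z : ℝ) (g : ℕ → ℕ) (P U : ℕ → PN), 1 ≤ z → Tg K n P → Tg K n U →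
    Sp g P U n (exp (c * z)) → ∀ X : ℕ → ℝ, |nat g P X 0| ≤ exp (b * z) → ∀ l ≤ n, ∀ k,
      |gN n K g P U l k (zs P X 0)| ≤ exp (c' * z) := by
  obtain ⟨C, hC, h⟩ := nrm_dif n K
  obtain ⟨N, hN⟩ : ∃ N : ℕ, N = NK n K := ⟨_, rfl⟩
  refine ⟨(N + 1) * C + N * b + c, by positivity, ?_⟩
  intro z g P U hz hP hU hS X hX l hl k
  obtain ⟨F, hF⟩ : ∃ F, F = chr P (U l - P l) := ⟨_, rfl⟩
  have hN1 := h g P U (exp (c * z)) hP hU hS l hl
  rw [← hF] at hN1
  have hX' : 2 ^ g 0 * |zs P X 0| ≤ exp (b * z) := by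
    rw [nat_eq, abs_mul, abs_of_pos (by positivity : (0 : ℝ) < 2 ^ g 0)] at hX
    exact hX
  have one : ∀ m ∈ range (N + 1), |2 ^ g l / 2 ^ g k *
      (coeff (Finsupp.single k 1 + Finsupp.single 0 m) F * zs P X 0 ^ m)| ≤
      C * exp (c * z) * exp (b * z) ^ N := by
    intro m hm
    rw [mem_range] at hm
    have h1 := (coeff_le_nrm g (by norm_num : (0 : ℝ) ≤ 1 / 2) F
      (Finsupp.single k 1 + Finsupp.single 0 m)).trans hN1
    rw [map_add, Finsupp.weight_single, Finsupp.weight_single, one_smul, half_pow,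
      mul_one_div, pow_add, smul_eq_mul, mul_comm m, pow_mul, div_le_iff₀ (by positivity)] at h1
    rw [abs_mul, abs_mul, abs_pow, abs_of_pos (by positivity : (0 : ℝ) < 2 ^ g l / 2 ^ g k)]
    calc (2 : ℝ) ^ g l / 2 ^ g k * (|coeff (Finsupp.single k 1 + Finsupp.single 0 m) F| *
          |zs P X 0| ^ m)
        ≤ 2 ^ g l / 2 ^ g k * (C * (exp (c * z) / 2 ^ g l) * (2 ^ g k * (2 ^ g 0) ^ m) *
          |zs P X 0| ^ m) := by gcongr
      _ = C * exp (c * z) * (2 ^ g 0 * |zs P X 0|) ^ m := by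
          rw [mul_pow]
          field_simp
      _ ≤ C * exp (c * z) * exp (b * z) ^ m := by gcongr
      _ ≤ C * exp (c * z) * exp (b * z) ^ N := by
          refine mul_le_mul_of_nonneg_left (pow_le_pow_right₀ (ex_one hb hz) (by omega))
            (by positivity)
  unfold gN gD
  rw [← hF, ← hN, Finset.mul_sum]
  refine (Finset.abs_sum_le_sum_abs _ _).trans ((Finset.sum_le_sum one).trans ?_)
  rw [Finset.sum_const, card_range, nsmul_eq_mul]
  push_cast
  have := ex_le (by nlinarith [(Nat.cast_nonneg N : (0 : ℝ) ≤ N)] : 1 ≤ ((N : ℝ) + 1) * C) N b c hz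
  calc ((N : ℝ) + 1) * (C * exp (c * z) * exp (b * z) ^ N) =
        ((N : ℝ) + 1) * C * exp (b * z) ^ N * exp (c * z) := by ring
    _ ≤ _ := this

/-- **The difference of the heights over a label with gain**: the gradient at the time of `X`. -/
theorem dif_fin (n K c₀ : ℕ) (C b : ℝ) (hC : 0 ≤ C) (hb : 0 ≤ b) : ∃ c' : ℝ, 0 ≤ c' ∧
    ∀ (z y a c k : ℕ) (Sl Gr : ℕ → Prop) (ys : Fin k → ℕ) (gs : Fin c → ℕ) (g g2 : ℕ → ℕ),
    1 ≤ z → Ix n c k Sl Gr ys gs → Lq n c₀ y z a g g2 → ∀ P U : ℕ → PN,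
    Tg K n P → Tg K n U → Sp g P U n (exp (C * z)) → Sp g2 P U n (exp (C * z)) →
    ∀ v : Fin c, ∀ X x x' : ℕ → ℝ, |nat g P X 0| ≤ exp (b * z) →
    Bx g P (gs v) (exp (b * z)) x → Bx g P (gs v) (exp (b * z)) x' → ∀ δ : ℝ, 0 ≤ δ →
    |nat g P x 0 - nat g P X 0| ≤ δ → |nat g P x' 0 - nat g P X 0| ≤ δ →
      |(∑ u, ((if gs v = gs u then 1 else 0) - gN n K g P U (gs v) (gs u) (zs P X 0)) *
            (nat g P x (gs u) - nat g P x' (gs u)) -
          ∑ e, gN n K g P U (gs v) (ys e) (zs P X 0) *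
            (nat g P x (ys e) - nat g P x' (ys e))) -
        (2 ^ g (gs v) * (x (gs v) - eval x (U (gs v))) -
          2 ^ g (gs v) * (x' (gs v) - eval x' (U (gs v))))| ≤
        exp (c' * z) * (1 / 2 ^ (y * z) + δ) := by
  classical
  obtain ⟨C₀, hC₀, h⟩ := nrm_dif n K
  obtain ⟨N, hN⟩ : ∃ N : ℕ, N = NK n K := ⟨_, rfl⟩
  obtain ⟨A, hA⟩ : ∃ A : ℝ, A = ∑ m ∈ range (n + 1), ((exs m N).card : ℝ) := ⟨_, rfl⟩
  have hA0 : 0 ≤ A := by
    rw [hA]
    exact Finset.sum_nonneg fun _ _ => Nat.cast_nonneg _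
  obtain ⟨c₁, hc₁⟩ : ∃ c₁ : ℝ, c₁ = 2 * A + n * N * b + (C₀ + C) + (n * N + 3) * c₀ := ⟨_, rfl⟩
  obtain ⟨c₂, hc₂⟩ : ∃ c₂ : ℝ, c₂ = 2 * (N * C₀) + N * b + C := ⟨_, rfl⟩
  have h10 : 0 ≤ c₁ := by rw [hc₁]; positivity
  have h20 : 0 ≤ c₂ := by rw [hc₂]; positivity
  refine ⟨c₁ + c₂, by positivity, ?_⟩
  intro z y a c k Sl Gr ys gs g g2 hz hI hL P U hP hU hS0 hS2 v X x x' hX hx hx' δ hδ hd hd'
  have hzr : (1 : ℝ) ≤ z := by exact_mod_cast hz
  have hv1 := hI.di.g1 _ (hI.gs_gr v)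
  obtain ⟨l, hl⟩ : ∃ l, l = gs v := ⟨_, rfl⟩
  rw [← hl] at hx hx' hv1 ⊢
  obtain ⟨l1, ln⟩ := hv1
  obtain ⟨F, hF⟩ : ∃ F, F = chr P (U l - P l) := ⟨_, rfl⟩
  have hv : (U l - P l).vars ⊆ range l := AdxRow.vars_sub_le (hU.tri l) (hP.tri l)
  have hdd : (U l - P l).totalDegree ≤ K :=
    (totalDegree_sub _ _).trans (max_le (hU.deg l ln) (hP.deg l ln))
  have hFv : F.vars ⊆ range l := by
    rw [hF]
    exact chr_vars hP.tri hv
  have hFd : F.totalDegree ≤ N := by
    rw [hF]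
    refine (chr_deg hP.tri (fun i hi => hP.deg i (by omega)) hv hdd).trans ?_
    rw [hN]
    exact (Nat.mul_le_mul_left _ (Nat.pow_le_pow_right (Nat.succ_pos _) ln)).trans
      (Nat.le_succ _)
  have hN1 : 1 ≤ N := by
    rw [hN]
    unfold NK
    omega
  -- the points at the time of `X`
  obtain ⟨ζ, hζ⟩ : ∃ ζ : (ℕ → ℝ) → ℕ → ℝ, ζ = fun w i => if i = 0 then zs P X 0 else zs P w i :=
    ⟨_, rfl⟩
  have nb : ∀ {w : ℕ → ℝ} {i : ℕ}, |nat g P w i| ≤ exp (b * z) → |zs P w i| ≤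
      exp (b * z) / 2 ^ g i := by
    intro w i hw
    rw [nat_eq, abs_mul, abs_of_pos (by positivity : (0 : ℝ) < 2 ^ g i)] at hw
    rw [le_div_iff₀ (by positivity)]
    linarith
  have zb : ∀ w : ℕ → ℝ, Bx g P l (exp (b * z)) w → ∀ i < l, |ζ w i| ≤ exp (b * z) / 2 ^ g i := by
    intro w hw i hi
    rw [hζ]
    simp only
    split_ifs with h0
    · rw [h0]
      exact nb hX
    · exact nb (hw i hi)
  have z0 : ∀ w, ζ w 0 = zs P X 0 := fun w => by
    rw [hζ]
    simp only [if_true]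
  have zk : ∀ w, ∀ i, 1 ≤ i → ζ w i = zs P w i := fun w i hi => by
    rw [hζ]
    simp only
    rw [if_neg (by omega)]
  -- the quadratic part
  have key := dif_chr hL (F := F) (N := N) (S := C₀ * exp (C * z)) (B := exp (b * z))
    (by positivity) (ex_one hb hzr) hN1 l1 ln hFv hFd (by
      rw [hF]
      refine (h g2 P U (exp (C * z)) hP hU hS2 l ln).trans (le_of_eq ?_)
      ring) (ζ := ζ x) (ζ' := ζ x') (zb x hx) (zb x' hx') (by rw [z0, z0])
  rw [z0] at key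
  -- the time
  have tm : ∀ w : ℕ → ℝ, Bx g P l (exp (b * z)) w → |nat g P w 0 - nat g P X 0| ≤ δ →
      |2 ^ g l * (eval (zs P w) F - eval (ζ w) F)| ≤ exp (c₂ * z) / 2 * δ := by
    intro w hw hdw
    have e1 := nrm_lip hFv hFd g (ex_one hb hzr) hδ (fun i hi => nb (hw i hi)) (zb w hw)
      (fun i hi => by
        rcases Nat.eq_zero_or_pos i with h0 | h0
        · rw [h0, z0]
          rw [nat_eq, nat_eq, ← mul_sub, abs_mul,
            abs_of_pos (by positivity : (0 : ℝ) < 2 ^ g 0)] at hdw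
          rw [le_div_iff₀ (by positivity)]
          linarith
        · rw [zk w i h0, sub_self, abs_zero]
          positivity)
    have e2 := h g P U (exp (C * z)) hP hU hS0 l ln
    rw [← hF] at e2
    rw [abs_mul, abs_of_pos (by positivity : (0 : ℝ) < 2 ^ g l)]
    have e3 : N * exp (b * z) ^ N * nrm g (1 / 2) F * δ ≤
        N * exp (b * z) ^ N * (C₀ * (exp (C * z) / 2 ^ g l)) * δ :=
      mul_le_mul_of_nonneg_right (mul_le_mul_of_nonneg_left e2 (by positivity)) hδ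
    refine (mul_le_mul_of_nonneg_left (e1.trans e3) (by positivity)).trans ?_
    have e4 : (2 : ℝ) ^ g l * (N * exp (b * z) ^ N * (C₀ * (exp (C * z) / 2 ^ g l)) * δ) =
        ((2 * (N * C₀)) * exp (b * z) ^ N * exp (C * z)) / 2 * δ := by field_simp
    rw [e4]
    refine mul_le_mul_of_nonneg_right (div_le_div_of_nonneg_right ?_ (by norm_num)) hδ
    rw [hc₂]
    have hNr : (1 : ℝ) ≤ N := by exact_mod_cast hN1
    exact ex_le (by nlinarith) N b C hzr
  have t1 := tm x hx hd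
  have t2 := tm x' hx' hd'
  -- the heights
  have hgt : ∀ w : ℕ → ℝ, 2 ^ g l * (w l - eval w (U l)) = nat g P w l -
      2 ^ g l * eval (zs P w) F := by
    intro w
    rw [hF, chr_eval hP.tri, map_sub]
    unfold nat
    ring
  -- the sum
  have e1 : 2 ^ g l * ∑ k ∈ Ico 1 l, gD F N (zs P X 0) k * (ζ x k - ζ x' k) =
      ∑ u, gN n K g P U l (gs u) (zs P X 0) * (nat g P x (gs u) - nat g P x' (gs u)) +
      ∑ e, gN n K g P U l (ys e) (zs P X 0) * (nat g P x (ys e) - nat g P x' (ys e)) := by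
    rw [← hI.sum (fun k => gN n K g P U l k (zs P X 0) * (nat g P x k - nat g P x' k)),
      Finset.mul_sum]
    have e2 : ∑ k ∈ Ico 1 (n + 1), gN n K g P U l k (zs P X 0) *
        (nat g P x k - nat g P x' k) =
        ∑ k ∈ Ico 1 l, gN n K g P U l k (zs P X 0) * (nat g P x k - nat g P x' k) := by
      symm
      refine Finset.sum_subset (fun k hk => ?_) fun k hk hk' => ?_
      · rw [mem_Ico] at hk ⊢
        omega
      · rw [gN_zero hP.tri hU.tri (by
          rw [mem_Ico] at hk hk'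
          omega), zero_mul]
    rw [e2]
    refine Finset.sum_congr rfl fun k hk => ?_
    rw [mem_Ico] at hk
    unfold gN
    rw [zk x k hk.1, zk x' k hk.1, nat_eq, nat_eq, hF, hN]
    have : (2 : ℝ) ^ g k ≠ 0 := by positivity
    field_simp
  have e3 : ∑ u, ((if l = gs u then (1 : ℝ) else 0) - gN n K g P U l (gs u) (zs P X 0)) *
      (nat g P x (gs u) - nat g P x' (gs u)) = (nat g P x l - nat g P x' l) -
      ∑ u, gN n K g P U l (gs u) (zs P X 0) * (nat g P x (gs u) - nat g P x' (gs u)) := by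
    simp only [sub_mul (ite _ _ _), Finset.sum_sub_distrib, ite_mul, one_mul, zero_mul]
    congr 1
    have : ∀ u, (if l = gs u then nat g P x (gs u) - nat g P x' (gs u) else 0) =
        if u = v then nat g P x l - nat g P x' l else 0 := by
      intro u
      by_cases h' : u = v
      · rw [h', if_pos hl, if_pos rfl, hl]
      · rw [if_neg h', if_neg]
        intro e
        exact h' (hI.gs_in.injective (by rw [← e, hl]))
    rw [Finset.sum_congr rfl fun u _ => this u, Finset.sum_ite_eq' univ v, if_pos (mem_univ _)]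
  obtain ⟨Su, hSu⟩ : ∃ Su : ℝ, Su = ∑ u, gN n K g P U l (gs u) (zs P X 0) *
    (nat g P x (gs u) - nat g P x' (gs u)) := ⟨_, rfl⟩
  obtain ⟨Se, hSe⟩ : ∃ Se : ℝ, Se = ∑ e, gN n K g P U l (ys e) (zs P X 0) *
    (nat g P x (ys e) - nat g P x' (ys e)) := ⟨_, rfl⟩
  obtain ⟨Sk, hSk⟩ : ∃ Sk : ℝ, Sk = ∑ k ∈ Ico 1 l, gD F N (zs P X 0) k * (ζ x k - ζ x' k) :=
    ⟨_, rfl⟩
  rw [← hSu, ← hSe, ← hSk] at e1
  rw [← hSu] at e3
  rw [← hSk] at key
  rw [e3, ← hSe, hgt x, hgt x']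
  have e5 : (nat g P x l - nat g P x' l - Su) - Se -
      (nat g P x l - 2 ^ g l * eval (zs P x) F - (nat g P x' l - 2 ^ g l * eval (zs P x') F)) =
      2 ^ g l * (eval (ζ x) F - eval (ζ x') F - Sk) +
      (2 ^ g l * (eval (zs P x) F - eval (ζ x) F) -
        2 ^ g l * (eval (zs P x') F - eval (ζ x') F)) := by
    have : Su + Se = 2 ^ g l * Sk := e1.symm
    linarith
  rw [e5]
  have q1 : |2 ^ g l * (eval (ζ x) F - eval (ζ x') F - Sk)| ≤ exp (c₁ * z) / 2 ^ (y * z) := by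
    rw [abs_mul, abs_of_pos (by positivity : (0 : ℝ) < 2 ^ g l)]
    refine (mul_le_mul_of_nonneg_left key (by positivity)).trans ?_
    have hcard : ((exs l N).card : ℝ) ≤ A := by
      rw [hA]
      exact Finset.single_le_sum (f := fun m => ((exs m N).card : ℝ))
        (fun m _ => Nat.cast_nonneg _) (mem_range.2 (by omega))
    have hAe : 2 * A ≤ exp (2 * A * z) := by
      have := Real.add_one_le_exp (2 * A * z)
      nlinarith
    have hB : exp (b * z) ^ (l * N) ≤ exp (n * N * b * z) := by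
      rw [← Real.exp_nat_mul]
      refine exp_le_exp.2 ?_
      push_cast
      have h1 : (l : ℝ) * N ≤ n * N := mul_le_mul_of_nonneg_right (by exact_mod_cast ln)
        (Nat.cast_nonneg _)
      have h2 : 0 ≤ b * z := mul_nonneg hb (by linarith)
      nlinarith
    have hC0 : C₀ * exp (C * z) ≤ exp ((C₀ + C) * z) := by
      have := ex_le hC₀ 0 0 C hzr
      rw [pow_zero, mul_one, Nat.cast_zero, zero_mul, add_zero] at this
      exact this
    have h2e : (2 : ℝ) ^ ((n * N + 3) * (c₀ * z)) ≤ exp ((n * N + 3) * c₀ * z) := by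
      have := pw_le (a := (n * N + 3) * (c₀ * z)) (b := 0) (x := (n * N + 3) * c₀ * z) (by
        push_cast
        linarith) (by positivity)
      rw [pow_zero, mul_one] at this
      exact this
    calc (2 : ℝ) ^ g l * (2 * ((exs l N).card * (exp (b * z) ^ (l * N) * (C₀ * exp (C * z) *
          2 ^ ((n * N + 3) * (c₀ * z)))) / 2 ^ (y * z) / 2 ^ g l))
        = (2 * (exs l N).card) * (exp (b * z) ^ (l * N) * (C₀ * exp (C * z) *
          2 ^ ((n * N + 3) * (c₀ * z)))) / 2 ^ (y * z) := by field_simp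
      _ ≤ exp (2 * A * z) * (exp (n * N * b * z) * (exp ((C₀ + C) * z) *
          exp ((n * N + 3) * c₀ * z))) / 2 ^ (y * z) := by
          have : 2 * ((exs l N).card : ℝ) ≤ exp (2 * A * z) :=
            (mul_le_mul_of_nonneg_left hcard (by norm_num)).trans hAe
          gcongr
      _ = _ := by
          rw [← exp_add, ← exp_add, ← exp_add, hc₁]
          ring_nf
  refine (abs_add_le _ _).trans ((add_le_add q1 ((abs_sub _ _).trans (add_le_add t1 t2))).trans ?_)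
  have m1 : exp (c₁ * z) ≤ exp ((c₁ + c₂) * z) := ex_mono (by linarith) hzr
  have m2 : exp (c₂ * z) ≤ exp ((c₁ + c₂) * z) := ex_mono (by linarith) hzr
  calc exp (c₁ * z) / 2 ^ (y * z) + (exp (c₂ * z) / 2 * δ + exp (c₂ * z) / 2 * δ)
      = exp (c₁ * z) * (1 / 2 ^ (y * z)) + exp (c₂ * z) * δ := by ring
    _ ≤ exp ((c₁ + c₂) * z) * (1 / 2 ^ (y * z)) + exp ((c₁ + c₂) * z) * δ := by
        gcongr
    _ = _ := by ring

end Pool.TC25
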