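import Pool.Agent.H25.TC.GtB

/-!
# TC, labels with gain: the thin box and the own sheet, at one sample
-/

set_option autoImplicit false

namespace Pool.TC25

open Finset Real MvPolynomial
open Pool.Agent.H49.Ent Pool.Agent.H32.Dense Pool.STK Pool.STAT Pool.MIC.Frm Pool.FRM Pool.P4
open Pool.MIC.Fru (gw nat_gw nat_gw0 atT_tri atT_deg)
open Pool.P4L (lv_ok)

/-- **The levels** of the places `(i, j)`, `(i - a, j)`. -/
theorem lq_of {D : NDat2} {n K J a₀ w₀ z M : ℕ} {lam gam : ℕ → ℝ} {κ C₁ : ℝ} {q : D.Ω → ℝ}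
    (hO : D.Ok2 n K J a₀ w₀ z M lam gam κ C₁ q) (hlam : ∀ l, 1 ≤ l → l ≤ n → lam l = 1)
    (hC₁ : 0 ≤ C₁) {c : ℕ} (hc : 4 * C₁ ≤ c) {y a i j : ℕ} (hi : i ≤ M) (hj : j ≤ M)
    (ha : a ≤ i) (ya : y ≤ a) : Lq n c y z a (D.g i j) (D.g (i - a) j) := by
  have hz0 : (0 : ℝ) ≤ z := Nat.cast_nonneg z
  have hcz : 4 * C₁ * z ≤ c * z := mul_le_mul_of_nonneg_right hc hz0
  have hCz : 0 ≤ C₁ * z := mul_nonneg hC₁ hz0
  have eia : ((i - a : ℕ) : ℝ) = i - a := by rw [Nat.cast_sub ha]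
  have L2 : ∀ l, 1 ≤ l → l ≤ n →
      |(D.g i j l : ℝ) - D.g (i - a) j l - (a : ℝ) * z| ≤ 2 * C₁ * z := by
    intro l l1 ln
    have h := lv_ok hO hlam (i₁ := i) (j₁ := j) (i₂ := i - a) (j₂ := j) hi hj
      (by omega) (by omega) l1 ln
    rw [eia] at h
    rw [show (i : ℝ) - (i - a) + gam l * (j - j) = a by ring] at h
    exact h
  constructor
  · rw [hO.g_zero, hO.g_zero]
  · exact ya
  · intro l l1 ln
    have e1 := (abs_le.1 (L2 l l1 ln)).1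
    have e3 : (D.g (i - a) j l : ℝ) + a * z ≤ D.g i j l + c * z := by linarith
    exact_mod_cast e3
  · intro l l1 ln
    have e1 := (abs_le.1 (L2 l l1 ln)).2
    have e3 : (D.g i j l : ℝ) ≤ D.g (i - a) j l + a * z + c * z := by linarith
    exact_mod_cast e3

/-- **Two places of a frame**: `P` is a closed frame at `(i, j)`, `(i - a, j)`. -/
structure P2 (D : NDat2) (n K z M i j a y : ℕ) (C : ℝ) (P : ℕ → PN) (ω : D.Ω) : Prop where
  tg : Tg K n P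
  e0 : Sp (D.g i j) P (D.Φ i j ω) n (exp (C * z))
  e2 : Sp (D.g (i - a) j) P (D.Φ (i - a) j ω) n (exp (C * z))
  bz : ∀ l, 1 ≤ l → l ≤ n → |nat (D.g i j) P (D.X ω) l| ≤ exp (C * z)
  iM : i ≤ M
  jM : j ≤ M
  ai : a ≤ i
  ya : y ≤ a

/-- The labels with gain at the two places, and the levels. -/
theorem p2_u (n K : ℕ) (C C' C₁ : ℝ) (hC : 0 ≤ C) (hC' : 0 ≤ C') (hC₁ : 0 ≤ C₁) :
    ∃ (c' : ℝ) (c₀ : ℕ), 0 ≤ c' ∧
    ∀ (D : NDat2) (U : GnL D) (R : ℕ → Prop) (K₁ J a₀ w₀ z M Q : ℕ) (lam gam : ℕ → ℝ) (κ : ℝ)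
      (q : D.Ω → ℝ), D.Ok2 n K₁ J a₀ w₀ z M lam gam κ C₁ q → U.Ok n K₁ J a₀ w₀ z M Q R C₁ q →
      K₁ ≤ K → 1 ≤ z → (∀ l, 1 ≤ l → l ≤ n → lam l = 1) → ∀ (i j a y : ℕ) (P : ℕ → PN)
      (ω : D.Ω), P2 D n K z M i j a y C P ω → GoodU D U n J w₀ z M R C' ω →
      Lq n c₀ y z a (D.g i j) (D.g (i - a) j) ∧
      Tg K n (uL U n R P (D.wn J w₀ ω)) ∧
      Sp (D.g i j) P (uL U n R P (D.wn J w₀ ω)) n (exp (c' * z)) ∧
      Sp (D.g (i - a) j) P (uL U n R P (D.wn J w₀ ω)) n (exp (c' * z)) := by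
  obtain ⟨c', h0, h⟩ := pl_one n K C C' hC hC'
  obtain ⟨c₀, hc₀⟩ := exists_nat_ge (4 * C₁)
  refine ⟨c', c₀, h0, ?_⟩
  intro D U R K₁ J a₀ w₀ z M Q lam gam κ q hO hU hK hz hlam i j a y P ω hP hG
  have hai := hP.ai
  have hiM := hP.iM
  have hΦ : ∀ i j, Tg K n (D.Φ i j ω) := fun i j =>
    ⟨hO.P_tri i j _, fun l _ => (hO.P_deg i j _ l).trans hK⟩
  refine ⟨lq_of hO hlam hC₁ hc₀ hiM hP.jM hai hP.ya, tg_uL hU hK hP.tg _, ?_, ?_⟩
  · exact h D U R z _ P _ _ hz hP.tg (hΦ _ _) (tg_uL hU hK (hΦ _ _) _) hP.e0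
      (hG.cl i hiM j hP.jM)
  · exact h D U R z _ P _ _ hz hP.tg (hΦ _ _) (tg_uL hU hK (hΦ _ _) _) hP.e2
      (hG.cl (i - a) (by omega) j hP.jM)

/-- The covector of a label with gain over `P` at the time of `X`, line side. -/
noncomputable def cvX {D : NDat2} (U : GnL D) (n K : ℕ) (R : ℕ → Prop) (g : ℕ → ℕ) (P : ℕ → PN)
    (x : D.Λ × ℕ) (l u : ℕ) (X : ℕ → ℝ) : ℝ :=
  (if l = u then 1 else 0) - gN n K g P (uL U n R P x) l u (zs P X 0)

/-- The slope of a label with gain over `P` at the time of `X`, line side. -/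
noncomputable def slX {D : NDat2} (U : GnL D) (n K : ℕ) (R : ℕ → Prop) (g : ℕ → ℕ) (P : ℕ → PN)
    (x : D.Λ × ℕ) (l k : ℕ) (X : ℕ → ℝ) : ℝ := gN n K g P (uL U n R P x) l k (zs P X 0)

/-- The covectors are bounded. -/
theorem cvX_le (n K : ℕ) (c b : ℝ) (hc : 0 ≤ c) (hb : 0 ≤ b) : ∃ c' : ℝ, 0 ≤ c' ∧
    ∀ (D : NDat2) (U : GnL D) (R : ℕ → Prop) (z : ℕ) (g : ℕ → ℕ) (P : ℕ → PN) (x : D.Λ × ℕ),
    1 ≤ z → Tg K n P → Tg K n (uL U n R P x) → Sp g P (uL U n R P x) n (exp (c * z)) →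
    ∀ X : ℕ → ℝ, |nat g P X 0| ≤ exp (b * z) → ∀ l ≤ n, ∀ u,
      |cvX U n K R g P x l u X| ≤ exp (c' * z) := by
  obtain ⟨c₁, h1, h⟩ := gN_le n K c b hc hb
  refine ⟨c₁ + 1, by linarith, ?_⟩
  intro D U R z g P x hz hP hU hS X hX l hl u
  have hzr : (1 : ℝ) ≤ z := by exact_mod_cast hz
  have h2 := h z g P _ hzr hP hU hS X hX l hl u
  have h3 : |(if l = u then (1 : ℝ) else 0)| ≤ 1 := by
    split_ifs
    · rw [abs_one]
    · rw [abs_zero]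
      exact zero_le_one
  have h5 : (1 : ℝ) ≤ exp (c₁ * z) := ex_one h1 hzr
  have h22 : (2 : ℝ) ≤ exp (1 * z) := by
    have := Real.add_one_le_exp (1 * (z : ℝ))
    linarith
  unfold cvX
  calc |(if l = u then (1 : ℝ) else 0) - gN n K g P (uL U n R P x) l u (zs P X 0)| ≤
        1 + exp (c₁ * z) := (abs_sub _ _).trans (add_le_add h3 h2)
    _ ≤ exp (c₁ * z) * exp (1 * z) := by nlinarith
    _ = _ := by rw [← exp_add]; ring_nf

/-- **Points near to the thin sheet**: the relation of the coordinates. -/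
theorem gt_bx (n K : ℕ) (C C' C₁ B : ℝ) (hC : 0 ≤ C) (hC' : 0 ≤ C') (hC₁ : 0 ≤ C₁)
    (hB : 0 ≤ B) : ∃ c' : ℝ, 0 ≤ c' ∧
    ∀ (D : NDat2) (U : GnL D) (R : ℕ → Prop) (K₁ J a₀ w₀ z M Q : ℕ) (lam gam : ℕ → ℝ) (κ : ℝ)
      (q : D.Ω → ℝ), D.Ok2 n K₁ J a₀ w₀ z M lam gam κ C₁ q → U.Ok n K₁ J a₀ w₀ z M Q R C₁ q →
      K₁ ≤ K → 1 ≤ z → (∀ l, 1 ≤ l → l ≤ n → lam l = 1) → ∀ (i j a y c k : ℕ)
      (Sl Gr : ℕ → Prop)
      (ys : Fin k → ℕ) (gs : Fin c → ℕ), Ix n c k Sl Gr ys gs →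
      ∀ (P : ℕ → PN) (ω : D.Ω), 0 < q ω → P2 D n K z M i j a y C P ω →
      GoodU D U n J w₀ z M R C' ω → ∀ v : Fin c, Ct n R (gs v) → ∀ b : ℕ → ℝ,
      |b 0 - D.X ω 0| ≤ exp (B * z) / 2 ^ (a₀ + i * z) →
      (∀ k, 1 ≤ k → k < gs v → |nat (D.g i j) P b k| ≤ exp (B * z)) → ∀ σ : ℝ,
      |b (gs v) - eval b (U.UD (gs v) (D.pt ω))| ≤ σ / 2 ^ D.g i j (gs v) →
      |∑ u, cvX U n K R (D.g i j) P (D.wn J w₀ ω) (gs v) (gs u) (D.X ω) *
          (nat (D.g i j) P b (gs u) - nat (D.g i j) P (D.X ω) (gs u)) -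
        ∑ e, slX U n K R (D.g i j) P (D.wn J w₀ ω) (gs v) (ys e) (D.X ω) *
          (nat (D.g i j) P b (ys e) - nat (D.g i j) P (D.X ω) (ys e))| ≤
        σ + exp (c' * z) * (1 / 2 ^ (y * z) + 1 / 2 ^ (Q * z)) := by
  classical
  obtain ⟨c₁, c₀, h1, hu⟩ := p2_u n K C C' C₁ hC hC' hC₁
  obtain ⟨c₂, h2, hrad⟩ := rad_sp n K C hC
  obtain ⟨B', hB'⟩ : ∃ B' : ℝ, B' = |C| + |B| + 2 + C + B := ⟨_, rfl⟩
  have hB'0 : 0 ≤ B' := by rw [hB']; positivity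
  obtain ⟨c₃, h3, hud⟩ := ud_ul n K c₂ C₁ B' h2 hB'0
  obtain ⟨c₄, h4, hdif⟩ := dif_fin n K c₀ c₁ B' h1 hB'0
  refine ⟨c₃ + 3 + (c₄ + B) + 1, by positivity, ?_⟩
  intro D U R K₁ J a₀ w₀ z M Q lam gam κ q hO hU hK hz hlam i j a y c k Sl Gr ys gs hI P ω
    hω hP hG v hv b hb0 hbk σ hσ
  have hzr : (1 : ℝ) ≤ z := by exact_mod_cast hz
  have hai := hP.ai
  have hiM := hP.iM
  have hjM := hP.jM
  have hB1 : exp (B * z) ≤ exp (B' * z) := ex_mono (by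
    rw [hB']
    have := abs_nonneg B
    have := abs_nonneg C
    linarith) hzr
  have hC1 : exp (C * z) ≤ exp (B' * z) := ex_mono (by
    rw [hB']
    have := abs_nonneg B
    have := abs_nonneg C
    linarith) hzr
  obtain ⟨hL, hUt, s0, s2⟩ := hu D U R K₁ J a₀ w₀ z M Q lam gam κ q hO hU hK hz hlam i j a y P ω
    hP hG
  have hrd := hrad D K₁ J a₀ w₀ z M lam gam κ C₁ q hO hK hz i hiM j hjM ω hω P hP.tg hP.e0
  have hl1 := hv.1
  have hln := hv.2.1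
  obtain ⟨l, hl⟩ : ∃ l, l = gs v := ⟨_, rfl⟩
  -- boxes
  have tb : |nat (D.g i j) P b 0| ≤ exp (B' * z) :=
    (t0_box hO hz hiM hjM hω hP.tg hP.e0 hb0).trans (ex_mono (by rw [hB']; linarith) hzr)
  have tX : |nat (D.g i j) P (D.X ω) 0| ≤ exp (B' * z) := by
    refine (t0_box hO hz hiM hjM hω hP.tg (b := B) hP.e0 ?_).trans
      (ex_mono (by rw [hB']; linarith) hzr)
    rw [sub_self, abs_zero]
    positivity
  have bb : Bx (D.g i j) P (gs v) (exp (B' * z)) b := by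
    intro k hk
    rcases Nat.eq_zero_or_pos k with hk0 | hk0
    · rw [hk0]
      exact tb
    · exact (hbk k hk0 hk).trans hB1
  have bX : Bx (D.g i j) P (gs v) (exp (B' * z)) (D.X ω) := by
    intro k hk
    rcases Nat.eq_zero_or_pos k with hk0 | hk0
    · rw [hk0]
      exact tX
    · exact (hP.bz k hk0 (by omega)).trans hC1
  -- the time
  have hdt : |nat (D.g i j) P b 0 - nat (D.g i j) P (D.X ω) 0| ≤ exp (B * z) / 2 ^ (y * z) := by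
    have e1 : nat (D.g i j) P b 0 - nat (D.g i j) P (D.X ω) 0 =
        2 ^ (w₀ + j * z) * (b 0 - D.X ω 0) := by
      unfold nat
      rw [ev0 hP.tg.tri b (D.X ω), hO.g_zero]
      ring
    rw [e1, abs_mul, abs_of_pos (by positivity)]
    rw [le_div_iff₀ (by positivity)] at hb0
    rw [le_div_iff₀ (by positivity)]
    have e2 : w₀ + j * z + y * z ≤ a₀ + i * z := by
      have := hO.thin
      have hya := hP.ya
      have e3 : j * z ≤ (M + 1) * z := Nat.mul_le_mul_right z (by omega)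
      have e5 : y * z ≤ i * z := Nat.mul_le_mul_right z (by omega)
      omega
    calc (2 : ℝ) ^ (w₀ + j * z) * |b 0 - D.X ω 0| * 2 ^ (y * z)
        = 2 ^ (w₀ + j * z + y * z) * |b 0 - D.X ω 0| := by
          rw [pow_add _ (w₀ + j * z)]
          ring
      _ ≤ 2 ^ (a₀ + i * z) * |b 0 - D.X ω 0| :=
          mul_le_mul_of_nonneg_right (pow_le_pow_right₀ one_le_two e2) (abs_nonneg _)
      _ ≤ _ := by linarith
  have key := hdif z y a c k Sl Gr ys gs _ _ hz hI hL P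
    (uL U n R P (D.wn J w₀ ω)) hP.tg hUt s0 s2 v (D.X ω) b (D.X ω) tX bb bX
    (exp (B * z) / 2 ^ (y * z)) (by positivity) hdt (by
      rw [sub_self, abs_zero]
      positivity)
  have eU : uL U n R P (D.wn J w₀ ω) (gs v) = U.UL (gs v) (D.wn J w₀ ω) := by
    unfold uL
    exact sysU_ct hv
  rw [eU] at key
  -- the heights
  have hpr := hU.deep (gs v) hv.1 hv.2.1 hv.2.2 i hiM j hjM
  have up : ∀ {A : ℝ}, 0 ≤ A → 2 ^ D.g i j (gs v) * (A / 2 ^ U.pr (gs v)) ≤ A / 2 ^ (Q * z) := by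
    intro A hA
    rw [← mul_div_assoc, div_le_div_iff₀ (by positivity) (by positivity)]
    calc (2 : ℝ) ^ D.g i j (gs v) * A * 2 ^ (Q * z) = A * 2 ^ (D.g i j (gs v) + Q * z) := by
          rw [pow_add]
          ring
      _ ≤ A * 2 ^ U.pr (gs v) :=
          mul_le_mul_of_nonneg_left (pow_le_pow_right₀ one_le_two hpr) hA
  have gX : |2 ^ D.g i j (gs v) * (D.X ω (gs v) - eval (D.X ω) (U.UL (gs v) (D.wn J w₀ ω)))| ≤
      2 / 2 ^ (Q * z) := by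
    rw [abs_mul, abs_of_pos (by positivity)]
    exact (mul_le_mul_of_nonneg_left (own_L hO hU hv hω) (by positivity)).trans (up (by norm_num))
  have gb : |2 ^ D.g i j (gs v) * (b (gs v) - eval b (U.UL (gs v) (D.wn J w₀ ω)))| ≤
      σ + exp (c₃ * z) / 2 ^ (Q * z) := by
    have e1 := hud D U R K₁ J a₀ w₀ z M Q lam gam κ q hO hU hK hz i hiM j hjM ω hω P hP.tg hrd
      (gs v) hv b (bx_rad (hb0.trans (div_le_div_of_nonneg_right hB1 (by positivity)))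
        fun k h1 h2 => (hbk k h1 h2).trans hB1)
    have e2 : 2 ^ D.g i j (gs v) * (b (gs v) - eval b (U.UL (gs v) (D.wn J w₀ ω))) =
        2 ^ D.g i j (gs v) * (b (gs v) - eval b (U.UD (gs v) (D.pt ω))) +
        2 ^ D.g i j (gs v) * (eval b (U.UD (gs v) (D.pt ω)) -
          eval b (U.UL (gs v) (D.wn J w₀ ω))) := by ring
    rw [e2]
    refine (abs_add_le _ _).trans (add_le_add ?_ ?_)
    · rw [abs_mul, abs_of_pos (by positivity)]
      rw [le_div_iff₀ (by positivity)] at hσ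
      linarith
    · rw [abs_mul, abs_of_pos (by positivity)]
      exact (mul_le_mul_of_nonneg_left e1 (by positivity)).trans (up (exp_pos _).le)
  unfold cvX slX
  obtain ⟨T, hT⟩ : ∃ T : ℝ, T = ∑ u, ((if gs v = gs u then 1 else 0) -
      gN n K (D.g i j) P (uL U n R P (D.wn J w₀ ω)) (gs v) (gs u) (zs P (D.X ω) 0)) *
      (nat (D.g i j) P b (gs u) - nat (D.g i j) P (D.X ω) (gs u)) -
      ∑ e, gN n K (D.g i j) P (uL U n R P (D.wn J w₀ ω)) (gs v) (ys e) (zs P (D.X ω) 0) *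
        (nat (D.g i j) P b (ys e) - nat (D.g i j) P (D.X ω) (ys e)) := ⟨_, rfl⟩
  rw [← hT] at key ⊢
  have e6 : |T| ≤ exp (c₄ * z) * (1 / 2 ^ (y * z) + exp (B * z) / 2 ^ (y * z)) +
      ((σ + exp (c₃ * z) / 2 ^ (Q * z)) + 2 / 2 ^ (Q * z)) := by
    obtain ⟨Gb, hGb⟩ : ∃ Gb : ℝ, Gb = 2 ^ D.g i j (gs v) *
      (b (gs v) - eval b (U.UL (gs v) (D.wn J w₀ ω))) := ⟨_, rfl⟩
    obtain ⟨GX, hGX⟩ : ∃ GX : ℝ, GX = 2 ^ D.g i j (gs v) *
      (D.X ω (gs v) - eval (D.X ω) (U.UL (gs v) (D.wn J w₀ ω))) := ⟨_, rfl⟩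
    rw [← hGb, ← hGX] at key
    rw [← hGb] at gb
    rw [← hGX] at gX
    have e7 : T = (T - (Gb - GX)) + (Gb - GX) := by ring
    rw [e7]
    exact (abs_add_le _ _).trans (add_le_add key ((abs_sub _ _).trans (add_le_add gb gX)))
  refine e6.trans ?_
  have h22 : (2 : ℝ) ≤ exp (1 * z) := by
    have := Real.add_one_le_exp (1 * (z : ℝ))
    linarith
  have m1 : exp (c₄ * z) * (1 + exp (B * z)) ≤ exp ((c₃ + 3 + (c₄ + B) + 1) * z) := by
    have hE : (1 : ℝ) ≤ exp (B * z) := ex_one hB hzr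
    calc exp (c₄ * z) * (1 + exp (B * z)) ≤ exp (c₄ * z) * (exp (1 * z) * exp (B * z)) := by
          refine mul_le_mul_of_nonneg_left ?_ (exp_pos _).le
          nlinarith
      _ = exp ((c₄ + B + 1) * z) := by
          rw [← exp_add, ← exp_add]
          ring_nf
      _ ≤ _ := ex_mono (by linarith) hzr
  have m2 : exp (c₃ * z) + 2 ≤ exp ((c₃ + 3 + (c₄ + B) + 1) * z) := by
    have hE : (1 : ℝ) ≤ exp (c₃ * z) := ex_one h3 hzr
    have h44 : (4 : ℝ) ≤ exp (1 * z) * exp (1 * z) := by nlinarith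
    calc exp (c₃ * z) + 2 ≤ exp (c₃ * z) * 4 := by linarith
      _ ≤ exp (c₃ * z) * (exp (1 * z) * exp (1 * z)) :=
          mul_le_mul_of_nonneg_left h44 (exp_pos _).le
      _ = exp ((c₃ + 2) * z) := by
          rw [← exp_add, ← exp_add]
          ring_nf
      _ ≤ _ := ex_mono (by linarith) hzr
  have e10 : exp (c₄ * z) * (1 / 2 ^ (y * z) + exp (B * z) / 2 ^ (y * z)) +
      ((σ + exp (c₃ * z) / 2 ^ (Q * z)) + 2 / 2 ^ (Q * z)) =
      σ + ((exp (c₄ * z) * (1 + exp (B * z))) * (1 / 2 ^ (y * z)) +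
        (exp (c₃ * z) + 2) * (1 / 2 ^ (Q * z))) := by ring
  rw [e10, mul_add (exp ((c₃ + 3 + (c₄ + B) + 1) * z))]
  exact add_le_add le_rfl (add_le_add (mul_le_mul_of_nonneg_right m1 (by positivity))
    (mul_le_mul_of_nonneg_right m2 (by positivity)))

open Classical in
/-- **The own slopes.** -/
theorem gt_af (n K : ℕ) (C C' C₁ : ℝ) (hC : 0 ≤ C) (hC' : 0 ≤ C') (hC₁ : 0 ≤ C₁) :
    ∃ c' : ℝ, 0 ≤ c' ∧
    ∀ (D : NDat2) (U : GnL D) (R : ℕ → Prop) (K₁ J a₀ w₀ z M Q : ℕ) (lam gam : ℕ → ℝ) (κ : ℝ)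
      (q : D.Ω → ℝ), D.Ok2 n K₁ J a₀ w₀ z M lam gam κ C₁ q → U.Ok n K₁ J a₀ w₀ z M Q R C₁ q →
      K₁ ≤ K → 1 ≤ z → (∀ l, 1 ≤ l → l ≤ n → lam l = 1) → ∀ (i j r r' a y c k : ℕ)
      (Sl Gr : ℕ → Prop)
      (ys : Fin k → ℕ) (gs : Fin c → ℕ), Ix n c k Sl Gr ys gs →
      Num n M i j r r' y gam Sl Gr →
      ∀ (P V : ℕ → PN) (ω : D.Ω), 0 < q ω → P2 D n K z M i j a y C P ω →
      Frs D n K z i j r r' C P V ω → GoodU D U n J w₀ z M R C' ω →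
      ∀ (nu : ℕ → ℝ) (S : ℕ → ℕ → ℝ) (τ : ℝ), 0 ≤ τ →
      (∀ b : ℕ → ℝ, b 0 = D.X ω 0 → (∀ k, Sl k → |nat (D.g i j) P b k| ≤ exp (1 * z)) →
        (∀ u, Gr u → b u = eval b (D.Ψ (i - r') (j + r) ω u)) → ∀ u, Gr u →
        |nat (D.g i j) P b u - (nu u + ∑ k ∈ (range n).filter Sl,
          S u k * nat (D.g i j) P b k)| ≤ τ) →
      ∀ v : Fin c, Ct n R (gs v) → ∀ e : Fin k,
      |∑ u, cvX U n K R (D.g i j) P (D.wn J w₀ ω) (gs v) (gs u) (D.X ω) * S (gs u) (ys e) -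
        slX U n K R (D.g i j) P (D.wn J w₀ ω) (gs v) (ys e) (D.X ω)| ≤
        exp (c' * z) * (τ + 1 / 2 ^ (y * z)) := by
  obtain ⟨c₁, c₀, h1, hu⟩ := p2_u n K C C' C₁ hC hC' hC₁
  obtain ⟨c₂, h2, hst⟩ := sheet_thin n K C C₁ 0 hC hC₁ le_rfl
  obtain ⟨c₃, h3, hdif⟩ := dif_fin n K c₀ c₁ (c₂ + (C + 2)) h1 (by linarith)
  obtain ⟨c₄, h4, hMM⟩ := cvX_le n K c₁ (c₂ + (C + 2)) h1 (by linarith)
  have hn0 : (0 : ℝ) ≤ n := Nat.cast_nonneg n
  refine ⟨c₃ + c₂ + (n + c₄) + 3, by positivity, ?_⟩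
  intro D U R K₁ J a₀ w₀ z M Q lam gam κ q hO hU hK hz hlam i j r r' a y c k Sl Gr ys gs hI hN P V
    ω hω hP hF hG nu S τ hτ hsh v hv e
  have hzr : (1 : ℝ) ≤ z := by exact_mod_cast hz
  obtain ⟨hL, hUt, s0, s2⟩ := hu D U R K₁ J a₀ w₀ z M Q lam gam κ q hO hU hK hz hlam i j a y P ω
    hP hG
  have tX : |nat (D.g i j) P (D.X ω) 0| ≤ exp ((c₂ + (C + 2)) * z) := by
    have := t0_box hO hz hP.iM hP.jM hω hP.tg (b := 0) hP.e0 (x := D.X ω) (by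
      rw [sub_self, abs_zero]
      positivity)
    refine this.trans (ex_mono ?_ hzr)
    rw [abs_of_nonneg hC, abs_zero]
    linarith
  have hPt := hP.tg.tri
  obtain ⟨F, hF'⟩ : ∃ F : ℕ → PN, F = D.Ψ (i - r') (j + r) ω := ⟨_, rfl⟩
  have hFt : TriN F := by
    rw [hF']
    exact hO.G_tri _ _ _
  -- the points of the own sheet
  obtain ⟨pb, hpb⟩ : ∃ pb : (ℕ → ℝ) → ℕ → ℝ, pb = fun ζ =>
    xsh Sl Gr (D.X ω 0) P F (n + 1) (ps P ζ) := ⟨_, rfl⟩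
  have pb0 : ∀ ζ, pb ζ 0 = D.X ω 0 := fun ζ => by
    rw [hpb]
    exact xsh_zero hI.di hPt hFt
  have pbs : ∀ ζ, ∀ k, Sl k → nat (D.g i j) P (pb ζ) k = 2 ^ D.g i j k * ζ k := by
    intro ζ k hk
    have hk1 := hI.di.s1 k hk
    rw [nat_eq, hpb]
    simp only
    rw [xsh_slow hI.di hPt hFt hk, if_pos (by omega), zs_ps hPt]
  have pbg : ∀ ζ, ∀ u, Gr u → pb ζ u = eval (pb ζ) (D.Ψ (i - r') (j + r) ω u) := by
    intro ζ u hu
    rw [hpb, ← hF']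
    exact xsh_grp hI.di hPt hFt hu
  have pnr : ∀ ζ, (∀ k, Sl k → |2 ^ D.g i j k * ζ k| ≤ 1) →
      Near D a₀ z i j r r' Sl Gr P ω (exp (0 * z)) (n + 1) (pb ζ) := by
    intro ζ hζ
    refine ⟨?_, fun k hk _ => ?_, fun u hu _ => ?_⟩
    · rw [pb0, sub_self, abs_zero]
      positivity
    · rw [pbs ζ k hk, zero_mul, exp_zero]
      exact hζ k hk
    · rw [← pbg ζ u hu, sub_self, abs_zero]
      positivity
  have h1e : (1 : ℝ) ≤ exp (1 * z) := ex_one zero_le_one hzr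
  obtain ⟨ζe, hζe⟩ : ∃ ζ : ℕ → ℝ, ζ = fun k => if k = ys e then 1 / 2 ^ D.g i j k else 0 :=
    ⟨_, rfl⟩
  have nze : ∀ k, 2 ^ D.g i j k * ζe k = if k = ys e then 1 else 0 := by
    intro k
    rw [hζe]
    simp only
    split_ifs
    · field_simp
    · rw [mul_zero]
  have bze : ∀ k, |2 ^ D.g i j k * ζe k| ≤ 1 := by
    intro k
    rw [nze]
    split_ifs
    · rw [abs_one]
    · rw [abs_zero]
      exact zero_le_one
  have bz0 : ∀ k : ℕ, |2 ^ D.g i j k * (0 : ℝ)| ≤ 1 := by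
    intro k
    rw [mul_zero, abs_zero]
    exact zero_le_one
  obtain ⟨x, hx⟩ : ∃ x, x = pb ζe := ⟨_, rfl⟩
  obtain ⟨x', hx'⟩ : ∃ x', x' = pb (fun _ => 0) := ⟨_, rfl⟩
  have A := hst D U R K₁ J a₀ w₀ z M Q lam gam κ q hO hU hK hz hlam i j r r' y _ _ hN ω hω P V hF
    (gs v) hv (hI.gs_gr v) x (by rw [hx]; exact pnr ζe fun k _ => bze k)
  have A' := hst D U R K₁ J a₀ w₀ z M Q lam gam κ q hO hU hK hz hlam i j r r' y _ _ hN ω hω P V
    hF (gs v) hv (hI.gs_gr v) x' (by rw [hx']; exact pnr (fun _ => 0) fun k _ => bz0 k)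
  have hln := hv.2.1
  have t0 : nat (D.g i j) P x 0 = nat (D.g i j) P (D.X ω) 0 := by
    unfold nat
    rw [ev0 hPt x (D.X ω), hx, pb0]
  have t0' : nat (D.g i j) P x' 0 = nat (D.g i j) P (D.X ω) 0 := by
    unfold nat
    rw [ev0 hPt x' (D.X ω), hx', pb0]
  have m2 : exp (c₂ * z) ≤ exp ((c₂ + (C + 2)) * z) := ex_mono (by linarith) hzr
  have key := hdif z y a c k Sl Gr ys gs _ _ hz hI hL P
    (uL U n R P (D.wn J w₀ ω)) hP.tg hUt s0 s2 v (D.X ω) x x' tX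
    (fun k hk => (A.1 k (by omega)).trans m2)
    (fun k hk => (A'.1 k (by omega)).trans m2) 0 le_rfl (by rw [t0, sub_self, abs_zero])
    (by rw [t0', sub_self, abs_zero])
  have eU : uL U n R P (D.wn J w₀ ω) (gs v) = U.UL (gs v) (D.wn J w₀ ω) := by
    unfold uL
    exact sysU_ct hv
  rw [eU, add_zero] at key
  -- slow coordinates
  have sx : ∀ k, Sl k → nat (D.g i j) P x k = if k = ys e then 1 else 0 := fun k hk => by
    rw [hx, pbs ζe k hk, nze]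
  have sx' : ∀ k, Sl k → nat (D.g i j) P x' k = 0 := fun k hk => by
    rw [hx', pbs _ k hk, mul_zero]
  have esum : ∑ e', gN n K (D.g i j) P (uL U n R P (D.wn J w₀ ω)) (gs v) (ys e')
        (zs P (D.X ω) 0) *
        (nat (D.g i j) P x (ys e') - nat (D.g i j) P x' (ys e')) =
      slX U n K R (D.g i j) P (D.wn J w₀ ω) (gs v) (ys e) (D.X ω) := by
    rw [Finset.sum_eq_single e]
    · rw [sx _ (hI.ys_sl e), sx' _ (hI.ys_sl e), if_pos rfl, sub_zero, mul_one]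
      rfl
    · intro e' _ he'
      rw [sx _ (hI.ys_sl e'), sx' _ (hI.ys_sl e'), if_neg (fun h => he' (hI.ys_in h)), sub_self,
        mul_zero]
    · intro h
      exact absurd (mem_univ e) h
  rw [esum] at key
  -- the group
  have hy : ∀ u : Fin c, |(nat (D.g i j) P x (gs u) - nat (D.g i j) P x' (gs u)) -
      S (gs u) (ys e)| ≤ 2 * τ := by
    intro u
    have a1 := hsh x (by rw [hx]; exact pb0 _) (fun k hk => by
      rw [sx k hk]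
      split_ifs
      · rw [abs_one]
        exact h1e
      · rw [abs_zero]
        exact (exp_pos _).le) (by rw [hx]; exact pbg ζe) (gs u) (hI.gs_gr u)
    have a2 := hsh x' (by rw [hx']; exact pb0 _) (fun k hk => by
      rw [sx' k hk, abs_zero]
      exact (exp_pos _).le) (by rw [hx']; exact pbg _) (gs u) (hI.gs_gr u)
    have e1 : ∑ k ∈ (range n).filter Sl, S (gs u) k * nat (D.g i j) P x k =
        S (gs u) (ys e) := by
      rw [Finset.sum_eq_single (ys e)]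
      · rw [sx _ (hI.ys_sl e), if_pos rfl, mul_one]
      · intro k hk hne
        rw [mem_filter] at hk
        rw [sx k hk.2, if_neg hne, mul_zero]
      · intro h
        exact absurd (mem_filter.2 ⟨mem_range.2 (hI.di.s1 _ (hI.ys_sl e)).2, hI.ys_sl e⟩) h
    have e2 : ∑ k ∈ (range n).filter Sl, S (gs u) k * nat (D.g i j) P x' k = 0 := by
      refine Finset.sum_eq_zero fun k hk => ?_
      rw [mem_filter] at hk
      rw [sx' k hk.2, mul_zero]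
    rw [e1] at a1
    rw [e2, add_zero] at a2
    have e3 : (nat (D.g i j) P x (gs u) - nat (D.g i j) P x' (gs u)) - S (gs u) (ys e) =
        (nat (D.g i j) P x (gs u) - (nu (gs u) + S (gs u) (ys e))) -
          (nat (D.g i j) P x' (gs u) - nu (gs u)) := by ring
    rw [e3]
    refine (abs_sub _ _).trans ?_
    linarith
  have hMb : ∀ u : Fin c, |cvX U n K R (D.g i j) P (D.wn J w₀ ω) (gs v) (gs u) (D.X ω)| ≤
      exp (c₄ * z) := fun u =>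
    hMM D U R z _ P (D.wn J w₀ ω) hz hP.tg hUt s0 (D.X ω) tX (gs v) hln.le (gs u)
  have hgs : |∑ u, cvX U n K R (D.g i j) P (D.wn J w₀ ω) (gs v) (gs u) (D.X ω) *
      ((nat (D.g i j) P x (gs u) - nat (D.g i j) P x' (gs u)) - S (gs u) (ys e))| ≤
      c * (exp (c₄ * z) * (2 * τ)) := by
    have := sum_bd univ (fun u : Fin c => cvX U n K R (D.g i j) P (D.wn J w₀ ω) (gs v) (gs u) (D.X ω) *
      ((nat (D.g i j) P x (gs u) - nat (D.g i j) P x' (gs u)) - S (gs u) (ys e)))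
      (B := exp (c₄ * z) * (2 * τ)) (fun u _ => by
        rw [abs_mul]
        exact mul_le_mul (hMb u) (hy u) (abs_nonneg _) (exp_pos _).le)
    rwa [card_univ, Fintype.card_fin] at this
  obtain ⟨L, hLd⟩ : ∃ L : ℝ, L = slX U n K R (D.g i j) P (D.wn J w₀ ω) (gs v) (ys e) (D.X ω) :=
    ⟨_, rfl⟩
  obtain ⟨G, hGd⟩ : ∃ G : ℝ, G = 2 ^ D.g i j (gs v) *
    (x (gs v) - eval x (U.UL (gs v) (D.wn J w₀ ω))) := ⟨_, rfl⟩
  obtain ⟨G', hGd'⟩ : ∃ G' : ℝ, G' = 2 ^ D.g i j (gs v) *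
    (x' (gs v) - eval x' (U.UL (gs v) (D.wn J w₀ ω))) := ⟨_, rfl⟩
  have A2 := A.2
  have A2' := A'.2
  rw [← hGd] at A2 key
  rw [← hGd'] at A2' key
  rw [← hLd] at key ⊢
  obtain ⟨T₁, hT₁⟩ : ∃ T₁ : ℝ, T₁ = ∑ u, cvX U n K R (D.g i j) P (D.wn J w₀ ω) (gs v) (gs u) (D.X ω) *
      (nat (D.g i j) P x (gs u) - nat (D.g i j) P x' (gs u)) := ⟨_, rfl⟩
  have key' : |T₁ - L - (G - G')| ≤ exp (c₃ * z) * (1 / 2 ^ (y * z)) := by
    rw [hT₁]
    exact key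
  have e4 : ∑ u, cvX U n K R (D.g i j) P (D.wn J w₀ ω) (gs v) (gs u) (D.X ω) *
      ((nat (D.g i j) P x (gs u) - nat (D.g i j) P x' (gs u)) - S (gs u) (ys e)) =
      T₁ - ∑ u, cvX U n K R (D.g i j) P (D.wn J w₀ ω) (gs v) (gs u) (D.X ω) * S (gs u) (ys e) := by
    rw [hT₁, ← Finset.sum_sub_distrib]
    exact Finset.sum_congr rfl fun u _ => by ring
  rw [e4] at hgs
  obtain ⟨T₂, hT₂⟩ : ∃ T₂ : ℝ, T₂ = ∑ u, cvX U n K R (D.g i j) P (D.wn J w₀ ω) (gs v) (gs u) (D.X ω) *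
      S (gs u) (ys e) := ⟨_, rfl⟩
  rw [← hT₂] at hgs ⊢
  have e5 : T₂ - L = (T₁ - L - (G - G')) + (G - G') - (T₁ - T₂) := by ring
  rw [e5]
  have e6 : |T₁ - L - (G - G') + (G - G') - (T₁ - T₂)| ≤
      exp (c₃ * z) * (1 / 2 ^ (y * z)) + (exp (c₂ * z) / 2 ^ (y * z) +
        exp (c₂ * z) / 2 ^ (y * z)) + c * (exp (c₄ * z) * (2 * τ)) :=
    (abs_sub _ _).trans (add_le_add ((abs_add_le _ _).trans (add_le_add key'
      ((abs_sub _ _).trans (add_le_add A2 A2')))) hgs)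
  refine e6.trans ?_
  have h22 : (2 : ℝ) ≤ exp (1 * z) := by
    have := Real.add_one_le_exp (1 * (z : ℝ))
    linarith
  have m1 : exp (c₃ * z) + 2 * exp (c₂ * z) ≤ exp ((c₃ + c₂ + (n + c₄) + 3) * z) := by
    have g1 : 2 * exp (c₂ * z) ≤ exp ((c₂ + 1) * z) := by
      calc 2 * exp (c₂ * z) ≤ exp (1 * z) * exp (c₂ * z) := by gcongr
        _ = _ := by rw [← exp_add]; ring_nf
    refine (add_le_add le_rfl g1).trans ((ex_add hzr).trans (ex_mono ?_ hzr))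
    rw [abs_of_nonneg h3, abs_of_nonneg (by linarith)]
    linarith
  have m2 : (c : ℝ) * (exp (c₄ * z) * 2) ≤ exp ((c₃ + c₂ + (n + c₄) + 3) * z) := by
    have hcc : (c : ℝ) ≤ exp (n * z) := by
      have h5 : (c : ℝ) ≤ n := by exact_mod_cast hI.c_le
      have := Real.add_one_le_exp ((n : ℝ) * z)
      nlinarith
    calc (c : ℝ) * (exp (c₄ * z) * 2) ≤ exp (n * z) * (exp (c₄ * z) * exp (1 * z)) := by gcongr
      _ = exp ((n + c₄ + 1) * z) := by rw [← exp_add, ← exp_add]; ring_nf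
      _ ≤ _ := ex_mono (by linarith) hzr
  have e7 : exp (c₃ * z) * (1 / 2 ^ (y * z)) + (exp (c₂ * z) / 2 ^ (y * z) +
      exp (c₂ * z) / 2 ^ (y * z)) + c * (exp (c₄ * z) * (2 * τ)) =
      (c * (exp (c₄ * z) * 2)) * τ + (exp (c₃ * z) + 2 * exp (c₂ * z)) *
        (1 / 2 ^ (y * z)) := by ring
  rw [e7, mul_add (exp ((c₃ + c₂ + (n + c₄) + 3) * z))]
  exact add_le_add (mul_le_mul_of_nonneg_right m2 hτ)
    (mul_le_mul_of_nonneg_right m1 (by positivity))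

end Pool.TC25
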