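import Pool.Agent.H25.TC.GtC
import Pool.Agent.H52.P4.Nbt
import Pool.Agent.H30.TC.Gft

/-!
# TC, labels with gain: `gfT`
-/

set_option autoImplicit false

namespace Pool.TC25

open Finset Real MvPolynomial
open Pool.Agent.H49.Ent Pool.Agent.H32.Dense Pool.STK Pool.STAT Pool.MIC.Frm Pool.MIC7 Pool.FRM
open Pool.GSD Pool.P4 Pool.TC
open Pool.BFL (Pb)
open Pool.LBL (Ld)

open Classical in
/-- **(GF)** in TC letters, at one sample. -/
theorem gfT : GfT := by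
  intro n d K K' c k0 k1 C₀ C₁ Cu th gam hC₀ hC₁ hCu
  obtain ⟨K₂, hK₂⟩ : ∃ K₂ : ℕ, K₂ = max K K' := ⟨_, rfl⟩
  obtain ⟨B, hB, hbox⟩ := nbt_box n K₂ C₀ C₁ hC₀ hC₁
  obtain ⟨c₁, c₀, h1, hu⟩ := p2_u n K₂ C₀ Cu C₁ hC₀ hCu hC₁
  obtain ⟨c₂, h2, hbx⟩ := gt_bx n K₂ C₀ Cu C₁ B hC₀ hCu hC₁ (by linarith)
  obtain ⟨c₃, h3, haf⟩ := gt_af n K₂ C₀ Cu C₁ hC₀ hCu hC₁
  obtain ⟨c₄, h4, hcv⟩ := cvX_le n K₂ c₁ (C₀ + 2) h1 (by linarith)
  obtain ⟨c₅, hc₅⟩ : ∃ c₅ : ℝ, c₅ = c₃ + 2 * C₀ + 1 := ⟨_, rfl⟩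
  refine ⟨0, le_rfl, fun C _ => ?_⟩
  obtain ⟨C₂, hC₂⟩ : ∃ C₂ : ℝ, C₂ = c₄ + (2 * C₁ + c₂ + (k0 + k1 : ℕ) + c₅ + (B + C₀ + 1)) + 2 :=
    ⟨_, rfl⟩
  have hk0 : (0 : ℝ) ≤ (k0 + k1 : ℕ) := Nat.cast_nonneg _
  refine ⟨C₂, by rw [hC₂, hc₅]; linarith, ?_⟩
  intro D U R J a₀ w₀ z M w i j r r2 r' r'' y a X Q lam κ q E P S ys gs H hG hgd hU ω hω hgu g hgn
    hgR
  have hF := H.fx hG hgd
  rw [← hK₂] at hF
  have hO := hF.ok
  have hzr : (1 : ℝ) ≤ z := by exact_mod_cast hF.z1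
  have hiM := hF.iM
  have hjM := hF.jM
  have hr1 := H.r_pos
  have hj1 : j + 1 < M := by omega
  have hI : Ix n c (k0 + k1) (sl th gam n) (gr th gam n) ys gs :=
    ⟨H.ys_sl, H.ys_in, fun _ hl => H.ys_on hl, H.gs_gr, H.gs_in, H.gs_on, hF.num.dic, hF.dic⟩
  have hq := (hgd ω hω).1
  have hct : Ct n R (gs g) := ⟨(hI.di.g1 _ (H.gs_gr g)).1, hgn, hgR⟩
  have hP := (hF.fr ω hω).2.2
  have f1 := frp_sp hO hF.k1 hP hF.k2 (le_refl i)
  have f2 := frp_sp hO hF.k1 hP hF.k2 (Nat.sub_le i a)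
  have hP2 : P2 D n K₂ z M i j a y C₀ (P (bb D i j r ω)) ω :=
    { tg := frp_tg hP hF.k2
      e0 := f1.1
      e2 := f2.1
      bz := fun l l1 ln => hF.bz ω hω l l1 ln
      iM := hiM.le
      jM := by omega
      ai := hF.ai
      ya := hF.ya }
  have hΦ : ∀ i j ω, Tg K₂ n (D.Φ i j ω) := fun i j ω =>
    ⟨hO.P_tri i j _, fun l _ => (hO.P_deg i j _ l).trans hF.k1⟩
  obtain ⟨V, hV⟩ : ∃ V, Frs D n K₂ z i j r r' C₀ (P (bb D i j r ω)) V ω := by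
    obtain ⟨V, hV1, hV2, hV3, hV4⟩ := (hF.fr ω hω).2.1.fc
    have tV : Tg K₂ n V := ⟨hV1, fun l _ => (hV2 l).trans hF.k2⟩
    exact ⟨V, frp_tg hP hF.k2, tV, (frp_sp hO hF.k1 hP hF.k2 le_rfl).1,
      sp_of_near tV (hΦ _ _ _) fun l hl => hV4 i hF.iM j (by omega) l hl,
      sp_of_near tV (hΦ _ _ _) fun l hl => hV4 (i - r') (by omega) (j + r) hF.jM l hl⟩
  obtain ⟨hL, hUt, s0, s2⟩ := hu D U R K J a₀ w₀ z M Q lam gam κ q hO hU hF.k1 hF.z1 hF.lam1 i j a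
    y _ ω hP2 hgu
  have tX : |nat (D.g i j) (P (bb D i j r ω)) (D.X ω) 0| ≤ exp ((C₀ + 2) * z) := by
    have := t0_box hO hF.z1 hiM.le hP2.jM hq hP2.tg (b := 0) hP2.e0 (x := D.X ω) (by
      rw [sub_self, abs_zero]
      positivity)
    refine this.trans (ex_mono ?_ hzr)
    rw [abs_of_nonneg hC₀, abs_zero]
    linarith
  obtain ⟨fL, hfL⟩ : ∃ fL : Fin c → ℝ, fL = fun u =>
    cvX U n K₂ R (D.g i j) (P (bb D i j r ω)) (D.wn J w₀ ω) (gs g) (gs u) (D.X ω) := ⟨_, rfl⟩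
  obtain ⟨sL, hsL⟩ : ∃ sL : Fin (k0 + k1) → ℝ, sL = fun e =>
    slX U n K₂ R (D.g i j) (P (bb D i j r ω)) (D.wn J w₀ ω) (gs g) (ys e) (D.X ω) := ⟨_, rfl⟩
  have hz0 : ∀ k, gs g ≤ k → gN n K₂ (D.g i j) (P (bb D i j r ω))
      (uL U n R (P (bb D i j r ω)) (D.wn J w₀ ω)) (gs g) k
      (zs (P (bb D i j r ω)) (D.X ω) 0) = 0 := fun k hk => gN_zero hP2.tg.tri hUt.tri hk _
  have hld : Ld g fL := by
    constructor
    · rw [hfL]
      show cvX U n K₂ R (D.g i j) (P (bb D i j r ω)) (D.wn J w₀ ω) (gs g) (gs g) (D.X ω) = 1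
      unfold cvX
      rw [if_pos rfl, hz0 _ le_rfl, sub_zero]
    · intro u hu
      rw [hfL]
      show cvX U n K₂ R (D.g i j) (P (bb D i j r ω)) (D.wn J w₀ ω) (gs g) (gs u) (D.X ω) = 0
      have h5 : gs g < gs u := H.gs_in hu
      unfold cvX
      rw [if_neg h5.ne, hz0 _ h5.le, sub_zero]
  have hfb : ∀ u, |fL u| ≤ exp (C₂ * z) := by
    intro u
    rw [hfL]
    refine (hcv D U R z _ _ (D.wn J w₀ ω) hF.z1 hP2.tg hUt s0 (D.X ω) tX (gs g)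
      (by omega) (gs u)).trans (ex_mono ?_ hzr)
    rw [hC₂, hc₅]
    linarith
  -- the own slopes
  have af : ∀ e, |∑ u, fL u * S.S ω (gs u) (ys e) - sL e| ≤ exp (c₅ * z) / 2 ^ (y * z) := by
    intro e
    have key := haf D U R K J a₀ w₀ z M Q lam gam κ q hO hU hF.k1 hF.z1 hF.lam1 i j r r' a y c
      (k0 + k1) _ _ ys gs hI hF.num _ V ω hq hP2 hV hgu (nn D n i j r th gam P S.S ω) (S.S ω)
      (exp (C₀ * 1 * z) * (exp (C₀ * z) / 2 ^ (y * z))) (by positivity)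
      (fun b hb0 hbk hbu u hu => hG.sheet ω hq hω 1 le_rfl b hb0 hbk hbu u hu) g hct e
    rw [hfL, hsL]
    refine key.trans ?_
    have e1 : exp (c₃ * z) * (exp (C₀ * 1 * z) * (exp (C₀ * z) / 2 ^ (y * z)) + 1 / 2 ^ (y * z)) =
        (exp (c₃ * z) * (exp (C₀ * 1 * z) * exp (C₀ * z) + 1)) / 2 ^ (y * z) := by ring
    rw [e1]
    refine div_le_div_of_nonneg_right ?_ (by positivity)
    have e2 : exp (C₀ * 1 * z) * exp (C₀ * z) = exp (2 * C₀ * z) := by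
      rw [← exp_add]
      ring_nf
    have e3 : (1 : ℝ) ≤ exp (2 * C₀ * z) := ex_one (by linarith) hzr
    have e4 : (2 : ℝ) ≤ exp (1 * z) := by
      have := Real.add_one_le_exp (1 * (z : ℝ))
      linarith
    rw [e2]
    calc exp (c₃ * z) * (exp (2 * C₀ * z) + 1) ≤
          exp (c₃ * z) * (exp (2 * C₀ * z) * exp (1 * z)) :=
          mul_le_mul_of_nonneg_left (by nlinarith) (exp_pos _).le
      _ = exp (c₅ * z) := by
          rw [← exp_add, ← exp_add, hc₅]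
          ring_nf
  refine ⟨fL, hld, hfb, ?_⟩
  intro l hgl b hb
  have hgl2 := hI.di.g1 _ (H.gs_gr l)
  have hbl := hbox D K K' J a₀ w₀ z M i j r r' a y lam gam κ q E P _ _ hF hj1 H.gam0 U R Q hU ω
    hω (gs l) hgl2.2 b hb
  have lv := lev2 hO hiM.le hj1.le (i₂ := i) hiM.le (j₂ := j) (by omega) hct.1 hct.2.1.le
  rw [abs_le] at lv
  push_cast at lv
  have hp : (2 : ℝ) ^ D.g i j (gs g) ≤ exp (2 * C₁ * z) * 2 ^ D.g i (j + 1) (gs g) := by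
    refine pw_le ?_ (by positivity)
    have : 0 ≤ gam (gs g) * z := mul_nonneg (H.gam0 _) (by linarith)
    nlinarith [lv.1, lv.2]
  have key := hbx D U R K J a₀ w₀ z M Q lam gam κ q hO hU hF.k1 hF.z1 hF.lam1 i j a y c (k0 + k1)
    _ _ ys gs hI _ ω hq hP2 hgu g hct b
    (hb.1.trans (div_le_div_of_nonneg_right (one_le_exp (by positivity)) (by positivity)))
    (fun l' _ h2 => hbl l' (h2.trans hgl)) (exp (2 * C₁ * z) / 2 ^ (Q * z)) (by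
      refine ((hb.2 (gs g) hct.1 hgl).2 hct.2.2).trans ?_
      rw [div_div, div_le_div_iff₀ (by positivity) (by positivity), one_mul, pow_add]
      have := mul_le_mul_of_nonneg_right hp (show (0 : ℝ) ≤ 2 ^ (Q * z) by positivity)
      linarith)
  -- combine
  obtain ⟨db, hdb⟩ : ∃ db : ℕ → ℝ, db = fun k => nat (D.g i j) (P (bb D i j r ω)) b k -
    ze D i j r P ω k := ⟨_, rfl⟩
  have key2 : |∑ u, fL u * db (gs u) - ∑ e, sL e * db (ys e)| ≤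
      exp (2 * C₁ * z) / 2 ^ (Q * z) + exp (c₂ * z) * (1 / 2 ^ (y * z) + 1 / 2 ^ (Q * z)) := by
    rw [hfL, hsL, hdb]
    exact key
  have hx : ∀ e, |(∑ u, fL u * S.S ω (gs u) (ys e) - sL e) * db (ys e)| ≤
      exp (c₅ * z) / 2 ^ (y * z) * exp ((B + C₀ + 1) * z) := by
    intro e
    rcases Nat.lt_or_ge (ys e) (gs l) with h5 | h5
    · rw [abs_mul]
      refine mul_le_mul (af e) ?_ (abs_nonneg _) (by positivity)
      rw [hdb]
      simp only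
      have e1 := hbl (ys e) h5
      have e2 := hF.bz ω hω (ys e) (hI.di.s1 _ (hI.ys_sl e)).1
        (hI.di.s1 _ (hI.ys_sl e)).2.le
      refine (abs_sub _ _).trans ((add_le_add e1 e2).trans ((ex_add hzr).trans
        (ex_mono ?_ hzr)))
      rw [abs_of_nonneg (by linarith : 0 ≤ B), abs_of_nonneg hC₀]
    · have e1 : ∑ u, fL u * S.S ω (gs u) (ys e) = 0 := by
        refine Finset.sum_eq_zero fun u _ => ?_
        rcases lt_or_ge g u with hu' | hu'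
        · rw [hld.2 u hu', zero_mul]
        · rw [H.geo.tS ω (gs u) (ys e) (((H.gs_in.monotone hu').trans hgl.le).trans h5),
            mul_zero]
      have e2 : sL e = 0 := by
        rw [hsL]
        exact hz0 _ (hgl.le.trans h5)
      rw [e1, e2, sub_zero, zero_mul, abs_zero]
      positivity
  have e1 : ∑ u, fL u * ((nat (D.g i j) (P (bb D i j r ω)) b (gs u) - ze D i j r P ω (gs u)) -
      ∑ a, S.S ω (gs u) (ys a) * (nat (D.g i j) (P (bb D i j r ω)) b (ys a) -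
        ze D i j r P ω (ys a))) =
      (∑ u, fL u * db (gs u) - ∑ e, sL e * db (ys e)) -
        ∑ e, (∑ u, fL u * S.S ω (gs u) (ys e) - sL e) * db (ys e) := by
    rw [hdb]
    simp only [mul_sub, sub_mul, Finset.sum_sub_distrib, Finset.mul_sum, Finset.sum_mul]
    rw [Finset.sum_comm (f := fun u a => fL u * (S.S ω (gs u) (ys a) *
      nat (D.g i j) (P (bb D i j r ω)) b (ys a))),
      Finset.sum_comm (f := fun u a => fL u * (S.S ω (gs u) (ys a) *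
      ze D i j r P ω (ys a)))]
    simp only [mul_assoc]
    ring
  rw [e1]
  have hs := sum_bd univ (fun e : Fin (k0 + k1) =>
    (∑ u, fL u * S.S ω (gs u) (ys e) - sL e) * db (ys e)) (fun e _ => hx e)
  rw [card_univ, Fintype.card_fin] at hs
  refine (abs_sub _ _).trans ((add_le_add key2 hs).trans ?_)
  have hkk : ((k0 + k1 : ℕ) : ℝ) ≤ exp ((k0 + k1 : ℕ) * z) := by
    have := Real.add_one_le_exp (((k0 + k1 : ℕ) : ℝ) * z)
    nlinarith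
  obtain ⟨sy, hsy⟩ : ∃ sy : ℝ, sy = 1 / 2 ^ (y * z) := ⟨_, rfl⟩
  obtain ⟨sQ, hsQ⟩ : ∃ sQ : ℝ, sQ = 1 / 2 ^ (Q * z) := ⟨_, rfl⟩
  have hsy0 : 0 ≤ sy := by rw [hsy]; positivity
  have hsQ0 : 0 ≤ sQ := by rw [hsQ]; positivity
  have m1 : exp (2 * C₁ * z) + exp (c₂ * z) ≤ exp (C₂ * z) := by
    refine (ex_add hzr).trans (ex_mono ?_ hzr)
    rw [abs_of_nonneg (by linarith : 0 ≤ 2 * C₁), abs_of_nonneg h2, hC₂, hc₅]
    linarith
  have m2 : exp (c₂ * z) + (k0 + k1 : ℕ) * (exp (c₅ * z) * exp ((B + C₀ + 1) * z)) ≤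
      exp (C₂ * z) := by
    have e2 : ((k0 + k1 : ℕ) : ℝ) * (exp (c₅ * z) * exp ((B + C₀ + 1) * z)) ≤
        exp (((k0 + k1 : ℕ) + c₅ + (B + C₀ + 1)) * z) := by
      calc ((k0 + k1 : ℕ) : ℝ) * (exp (c₅ * z) * exp ((B + C₀ + 1) * z)) ≤
            exp ((k0 + k1 : ℕ) * z) * (exp (c₅ * z) * exp ((B + C₀ + 1) * z)) :=
            mul_le_mul_of_nonneg_right hkk (by positivity)
        _ = _ := by
            rw [← exp_add, ← exp_add]
            ring_nf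
    refine (add_le_add le_rfl e2).trans ((ex_add hzr).trans (ex_mono ?_ hzr))
    rw [abs_of_nonneg h2, abs_of_nonneg (by rw [hc₅]; linarith), hC₂, hc₅]
    linarith
  calc exp (2 * C₁ * z) / 2 ^ (Q * z) + exp (c₂ * z) * (1 / 2 ^ (y * z) + 1 / 2 ^ (Q * z)) +
        ((k0 + k1 : ℕ) : ℝ) * (exp (c₅ * z) / 2 ^ (y * z) * exp ((B + C₀ + 1) * z))
      = (exp (c₂ * z) + (k0 + k1 : ℕ) * (exp (c₅ * z) * exp ((B + C₀ + 1) * z))) * sy +
        (exp (2 * C₁ * z) + exp (c₂ * z)) * sQ := by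
        rw [hsy, hsQ]
        ring
    _ ≤ exp (C₂ * z) * sy + exp (C₂ * z) * sQ :=
        add_le_add (mul_le_mul_of_nonneg_right m2 hsy0) (mul_le_mul_of_nonneg_right m1 hsQ0)
    _ = _ := by
        rw [hsy, hsQ]
        ring

end Pool.TC25
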